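import Pool.Agent.N821.CS.Stm

/-!
# Project CS (helper821), MP_eb8260_an, leaf GNS: construction of the isometric dilation
-/

set_option autoImplicit false

namespace Pool.Agent.N691.CS

open scoped InnerProductSpace NNReal Topology ComplexConjugate
open TopologicalSpace
open Pool.Agent.N821.CS

universe u

noncomputable section

section gen

/-- the Hilbert space of a positive semidefinite form -/
theorem gen {E : Type u} [AddCommGroup E] [Module ℂ E] (c : PreInnerProductSpace.Core ℂ E) :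
    ∃ (K : Type u) (_ : NormedAddCommGroup K) (_ : InnerProductSpace ℂ K) (_ : CompleteSpace K)
      (j : E →ₗ[ℂ] K), DenseRange j ∧ ∀ a b, ⟪j a, j b⟫_ℂ = c.inner a b := by
  let _ : PreInnerProductSpace.Core ℂ E := c
  let i1 : SeminormedAddCommGroup E :=
    @InnerProductSpace.Core.toSeminormedAddCommGroup ℂ E _ _ _ c
  let i2 : InnerProductSpace ℂ E := InnerProductSpace.ofCore c
  refine ⟨UniformSpace.Completion E, inferInstance, inferInstance, inferInstance,
    (UniformSpace.Completion.toComplₗᵢ (𝕜 := ℂ) (E := E)).toLinearMap, ?_, ?_⟩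
  · exact UniformSpace.Completion.denseRange_coe
  · intro a b
    exact UniformSpace.Completion.inner_coe a b

end gen

variable {H : Type u} [NormedAddCommGroup H] [InnerProductSpace ℂ H]

lemma ker_self (T : CSG H) (s : ℝ≥0) (u v : H) : ker T s s u v = ⟪u, v⟫_ℂ := by
  simp [ker, T.zero]

lemma ker_symm (T : CSG H) (s t : ℝ≥0) (u v : H) : conj (ker T s t u v) = ker T t s v u := by
  rcases lt_trichotomy s t with h | h | h
  · rw [ker, ker, if_pos h.le, if_neg (not_le.2 h), inner_conj_symm]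
  · subst h
    rw [ker_self, ker_self, inner_conj_symm]
  · rw [ker, ker, if_neg (not_le.2 h), if_pos h.le, inner_conj_symm]

lemma ker_add_left (T : CSG H) (s t : ℝ≥0) (u u' v : H) :
    ker T s t (u + u') v = ker T s t u v + ker T s t u' v := by
  unfold ker
  split_ifs
  · rw [inner_add_left]
  · rw [map_add, inner_add_left]

lemma ker_smul_left (T : CSG H) (s t : ℝ≥0) (r : ℂ) (u v : H) :
    ker T s t (r • u) v = conj r * ker T s t u v := by
  unfold ker
  split_ifs
  · rw [inner_smul_left]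
  · rw [map_smul, inner_smul_left]

lemma ker_zero_left (T : CSG H) (s t : ℝ≥0) (v : H) : ker T s t 0 v = 0 := by
  have := ker_smul_left T s t 0 (0 : H) v
  simpa using this

lemma ker_zero_right (T : CSG H) (s t : ℝ≥0) (v : H) : ker T s t v 0 = 0 := by
  rw [← ker_symm, ker_zero_left, map_zero]

lemma ker_add_right (T : CSG H) (s t : ℝ≥0) (u v v' : H) :
    ker T s t u (v + v') = ker T s t u v + ker T s t u v' := by
  rw [← ker_symm, ker_add_left, map_add, ker_symm, ker_symm]

lemma ker_shift (T : CSG H) (s t r : ℝ≥0) (u v : H) :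
    ker T (s + r) (t + r) u v = ker T s t u v := by
  unfold ker
  simp only [add_le_add_iff_right, add_tsub_add_eq_tsub_right]

/-- the semi-inner product -/
def ip (T : CSG H) (f g : ℝ≥0 →₀ H) : ℂ := f.sum fun s u => g.sum fun t v => ker T s t u v

lemma ip_symm (T : CSG H) (f g : ℝ≥0 →₀ H) : conj (ip T g f) = ip T f g := by
  unfold ip
  rw [Finsupp.sum_comm f g]
  unfold Finsupp.sum
  rw [map_sum]
  apply Finset.sum_congr rfl
  intro t _
  rw [map_sum]
  apply Finset.sum_congr rfl
  intro s _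
  exact ker_symm T t s _ _

lemma ip_add_left (T : CSG H) (f f' g : ℝ≥0 →₀ H) : ip T (f + f') g = ip T f g + ip T f' g := by
  unfold ip
  apply Finsupp.sum_add_index'
  · intro s
    simp [ker_zero_left]
  · intro s u u'
    simp only [ker_add_left, Finsupp.sum_add]

lemma ip_smul_left (T : CSG H) (r : ℂ) (f g : ℝ≥0 →₀ H) : ip T (r • f) g = conj r * ip T f g := by
  unfold ip
  rw [Finsupp.sum_smul_index' (by intro s; simp [ker_zero_left])]
  simp only [ker_smul_left]
  unfold Finsupp.sum
  rw [Finset.mul_sum]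
  apply Finset.sum_congr rfl
  intro s _
  rw [Finset.mul_sum]

lemma ip_single (T : CSG H) (s t : ℝ≥0) (u v : H) :
    ip T (Finsupp.single s u) (Finsupp.single t v) = ker T s t u v := by
  unfold ip
  rw [Finsupp.sum_single_index (by simp [ker_zero_left])]
  exact Finsupp.sum_single_index (h := fun t v => ker T s t u v) (ker_zero_right T s t u)

lemma ip_shift (T : CSG H) (r : ℝ≥0) (f g : ℝ≥0 →₀ H) :
    ip T (Finsupp.mapDomain (· + r) f) (Finsupp.mapDomain (· + r) g) = ip T f g := by
  unfold ip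
  rw [Finsupp.sum_mapDomain_index (by intro s; simp [ker_zero_left])
    (by intro s u u'; simp only [ker_add_left, Finsupp.sum_add])]
  unfold Finsupp.sum
  apply Finset.sum_congr rfl
  intro s _
  change (Finsupp.mapDomain (· + r) g).sum (fun t v => ker T (s + r) t (f s) v) =
    g.sum fun t v => ker T s t (f s) v
  rw [Finsupp.sum_mapDomain_index (by intro t; exact ker_zero_right T _ _ _)
    (by intro t v v'; exact ker_add_right T _ _ _ _ _)]
  simp only [ker_shift]

/-- the form as a structure -/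
@[instance_reducible] def cor (hP : S_POS.{u}) (T : CSG H) : PreInnerProductSpace.Core ℂ (ℝ≥0 →₀ H) where
  inner := ip T
  conj_inner_symm f g := ip_symm T f g
  re_inner_nonneg f := hP H T f
  add_left f f' g := ip_add_left T f f' g
  smul_left f g r := ip_smul_left T r f g

/-- GNS -/
theorem t (hP : S_POS.{u}) : S_GNS.{u} := by
  intro H _ _ T
  obtain ⟨K, iK, iH, iC, j, hd, hj⟩ := gen (cor hP T)
  have hj' : ∀ a b, ⟪j a, j b⟫_ℂ = ip T a b := hj
  have hnorm : ∀ a b : ℝ≥0 →₀ H, ip T a a = ip T b b → ‖j a‖ = ‖j b‖ := by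
    intro a b h
    have h1 : (⟪j a, j a⟫_ℂ) = ⟪j b, j b⟫_ℂ := by rw [hj', hj', h]
    rw [inner_self_eq_norm_sq_to_K, inner_self_eq_norm_sq_to_K] at h1
    have h2 : ‖j a‖ ^ 2 = ‖j b‖ ^ 2 := by exact_mod_cast h1
    exact (pow_left_inj₀ (norm_nonneg _) (norm_nonneg _) two_ne_zero).1 h2
  let A : ℝ≥0 → ((ℝ≥0 →₀ H) →ₗ[ℂ] (ℝ≥0 →₀ H)) := fun r => Finsupp.lmapDomain H ℂ (· + r)
  have hA : ∀ r f, A r f = Finsupp.mapDomain (· + r) f := fun r f => rfl
  have hAn : ∀ r f, ‖j (A r f)‖ = ‖j f‖ := by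
    intro r f
    apply hnorm
    rw [hA, ip_shift]
  let V : ℝ≥0 → (K →L[ℂ] K) := fun r => (j ∘ₗ A r).extendOfNorm j
  have hVj : ∀ r f, V r (j f) = j (A r f) := by
    intro r f
    have := LinearMap.extendOfNorm_eq (f := j ∘ₗ A r) (e := j) hd
      ⟨1, fun x => by rw [one_mul, LinearMap.comp_apply, hAn]⟩ f
    exact this
  have hδn : ∀ s u, ‖j (Finsupp.single s u)‖ = ‖u‖ := by
    intro s u
    have h1 : (⟪j (Finsupp.single s u), j (Finsupp.single s u)⟫_ℂ) = ⟪u, u⟫_ℂ := by
      rw [hj', ip_single, ker_self]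
    rw [inner_self_eq_norm_sq_to_K, inner_self_eq_norm_sq_to_K] at h1
    have h2 : ‖j (Finsupp.single s u)‖ ^ 2 = ‖u‖ ^ 2 := by exact_mod_cast h1
    exact (pow_left_inj₀ (norm_nonneg _) (norm_nonneg _) two_ne_zero).1 h2
  let δ : ℝ≥0 → (H →ₗᵢ[ℂ] K) := fun s =>
    { toLinearMap := j ∘ₗ Finsupp.lsingle s
      norm_map' := fun u => hδn s u }
  have hδ : ∀ s u, δ s u = j (Finsupp.single s u) := fun s u => rfl
  refine ⟨K, iK, iH, iC, V, δ, ?_, ?_, ?_, ?_⟩
  · intro r k
    refine hd.induction (P := fun k => ‖V r k‖ = ‖k‖) ?_ ?_ k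
    · rintro _ ⟨f, rfl⟩
      rw [hVj, hAn]
    · exact isClosed_eq (by fun_prop) continuous_norm
  · intro r s h
    rw [hδ, hVj, hδ, hA, Finsupp.mapDomain_single]
  · intro s t u v
    rw [hδ, hδ, hj', ip_single]
  · rw [← Submodule.dense_iff_topologicalClosure_eq_top]
    have hsub : Set.range j ⊆ (Submodule.span ℂ (⋃ s, Set.range (δ s)) : Set K) := by
      rintro _ ⟨f, rfl⟩
      rw [SetLike.mem_coe, ← Finsupp.sum_single f, Finsupp.sum, map_sum]
      apply Submodule.sum_mem
      intro s _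
      apply Submodule.subset_span
      exact Set.mem_iUnion.2 ⟨s, f s, rfl⟩
    exact hd.mono hsub

end

end Pool.Agent.N691.CS
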